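import Mathlib
import Pool.Agent.WCI.Main

/-!
# No walking coinductive isomorphism has an epimorphic tautological arrow

Sketch of the proof. There is a gaunt `∞`-category `Z` (a presheaf of sets on `Δ^∞`, defined in
`Pool.Agent.WCI.Zcat`) whose cells of each dimension carry a label, `True` or `False`, such that between two
parallel cells there is exactly one cell labelled `False` and, if they are equal, exactly one, the identity,
labelled `True`; the label of a composite is the conjunction of the labels. Every map `∂Gⁿ ⟶ Z` extends to
`Gⁿ` with top label `False`. Let `u : G¹ ⟶ E` be a walking coinductive isomorphism. If `E` has at least one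
cell besides `u`, the constant map `E ⟶ Z` (all labels `True`) and the map with the same values on the
previous stage, top label `False` on this cell, and any extension to the later cells agree on `u` but
differ. If `E` has no other cell, then `Map(E, Z') = Map(G¹, Z')` for the variant `Z'` of `Z` where arrows only
go from `False` to `True` objects or between objects with equal labels, which contradicts the existence
of an arrow from `u(1)` to `u(0)` in `E`.
-/

open CategoryTheory Pool.Agent.WCI

namespace Pool.Agent.Results.MP_811fd1_al.NoEpi

/-- There is no walking coinductive isomorphism `(E, u)` (an `L`-trivial cell complex `E` with a free map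
`u : G¹ ⟶ E`) such that `u` is an epimorphism in `Cat_∞`. -/
theorem result : ¬ ∃ (E : SPSh) (u : disc.obj (globe 1) ⟶ E),
    IsWalkingCoinductiveIso u ∧ IsEpiInf u :=
  Pool.Agent.WCI.main

end Pool.Agent.Results.MP_811fd1_al.NoEpi
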